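import Pool.Agent.Y41.EV.StmL
import Pool.Agent.Y995.HG.Sc
import Pool.Agent.Y995.FS.LimF2

/-!
Project EV (owner helper41), job EV-AEV: Borel-Cantelli for `BadV`.
-/

set_option autoImplicit false

namespace Pool.Agent.Y884.EVB

open H974 Finset H342P H984P H984N Pool.Agent.Y995.FS Pool.Agent.Y995.HG Pool.Agent.Y41.EV
open MeasureTheory Filter Topology

theorem aev : Pool.Agent.Y41.EV.S_AEV := by
  intro hopen hsc θ K2 A0 hθ hK2 hA0 R A hA hlat δ hδ hlim μ hμ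
  obtain ⟨-, -, hkf, -, -, hρ⟩ := hsc θ K2 A0 hθ hK2 hA0
  exact bc R (K := 1) le_rfl
    (B := fun ρ j => BadV R ρ (ww j) (tau θ K2 j) (ell A0 K2 j) (NN j))
    (fun ρ j => hopen R _ _ _ _ _)
    (fun ρ hρ0 => by
      have h1 : ∀ᶠ i : ℕ in atTop, 20 ≤ i ∧ 1 ≤ kf K2 i ∧ A0 * (ww i * EE K2 i) ≤ ρ :=
        (eventually_ge_atTop 20).and ((hkf.eventually (eventually_ge_atTop 1)).and (hρ ρ hρ0))
      rw [eventually_atTop] at h1
      obtain ⟨j1, hj1⟩ := h1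
      refine ⟨A, j1, hA, fun j hj => ?_⟩
      obtain ⟨g1, g2, g3⟩ := hj1 j hj
      obtain ⟨δ1, hδ1, h4⟩ := hlat (kf K2 j) (NN j) (ww j) ρ g2
        (by have := NN_big g1; omega) (ww_pos j)
        ((ww_le (by omega)).trans (by
          have : ((1:ℝ)/2) ^ (2 * j) ≤ (1/2) ^ 1 :=
            pow_le_pow_of_le_one (by norm_num) (by norm_num) (by omega)
          simpa using this)) g3
      exact ⟨δ1, hδ1, fun d hd hd' => (h4 d hd hd').trans (pr_bound hA g1)⟩)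
    hδ hlim hμ

end Pool.Agent.Y884.EVB
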